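import Pool.Agent.MDSM.Defs

/-!
# Moment bounds and pointwise bounds for quadratic `L`-functions on the critical line
-/

set_option autoImplicit false

open Complex
open Pool.Agent.MDS Pool.Agent.MDSM

namespace Pool.Agent.MDSLin

/-- `F_M` extends, with polynomial bounds in vertical strips, to tube domains containing the points
`(1/2, ..., 1/2; c)` with `c > θ`. For `θ = 1` this is the assertion of Q1 with every point
`(1/2, ..., 1/2; 1 + ε)` in the place of `(1/2, ..., 1/2; 1)`. -/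
def Reaches (k M : ℕ) (θ : ℝ) : Prop := ∀ c > θ, ExtendsTo k M (fun _ => 1 / 2, c)

open Classical in
/-- For all `c > θ` and some `N`, the `k`-th absolute moment at `1/2 + i t` over the fundamental
discriminants `1 < d ≤ X` is `O((1 + |t|) ^ N X ^ c)`, uniformly in `t` and `X`. -/
def MomentBound (k : ℕ) (θ : ℝ) : Prop :=
  ∀ c > θ, ∃ (C : ℝ) (N : ℕ), ∀ t X : ℝ, 1 ≤ X →
    ∑ d ∈ (Finset.Ioc 1 ⌊X⌋₊).filter IsFundDisc, ‖Lent d (1 / 2 + t * I)‖ ^ k ≤
      C * (1 + |t|) ^ N * X ^ c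

open Classical in
/-- The same in mean over `|t| ≤ T`: for all `c > θ` and some `N`, the integral over `|t| ≤ T` of the
`k`-th absolute moment at `1/2 + i t` is `O(T ^ N X ^ c)`, uniformly in `T` and `X`. -/
def MeanMomentBound (k : ℕ) (θ : ℝ) : Prop :=
  ∀ c > θ, ∃ (C : ℝ) (N : ℕ), ∀ T X : ℝ, 1 ≤ T → 1 ≤ X →
    ∫ t in (-T)..T, ∑ d ∈ (Finset.Ioc 1 ⌊X⌋₊).filter IsFundDisc, ‖Lent d (1 / 2 + t * I)‖ ^ k ≤
      C * T ^ N * X ^ c

/-- For all `c > μ` and some `N`, `L(1/2 + i t, χ_d) = O((1 + |t|) ^ N d ^ c)`, uniformly in the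
fundamental discriminant `d > 1` and in `t`. For `μ = 0` this is the Lindelöf hypothesis in the
conductor aspect for the even real characters. -/
def PointBound (μ : ℝ) : Prop :=
  ∀ c > μ, ∃ (C : ℝ) (N : ℕ), ∀ d : ℕ, IsFundDisc d → 1 < d → ∀ t : ℝ,
    ‖Lent d (1 / 2 + t * I)‖ ≤ C * (1 + |t|) ^ N * (d : ℝ) ^ c

end Pool.Agent.MDSLin
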