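import Pool.Agent.MDSM.Main
import Pool.Agent.MDSLin.Defs

set_option autoImplicit false

open Complex Filter Topology MeasureTheory Set
open Pool.Agent.TubeDS Pool.Agent.MDS Pool.Agent.MDSM

namespace Pool.Agent.MDSLin

/-- If the exponent is larger than all the exponents of the main terms, then there are no main
terms. -/
theorem small_generic {k M : ℕ} {σ : Fin k → ℝ} {θ : ℝ} (hθ0 : 0 < θ)
    (hθ1 : ∀ J : Finset (Fin k), 1 - ∑ j ∈ J, (σ j - 1 / 2) < θ) (h : ExtendsTo k M (σ, θ)) :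
    ∃ (R N : ℕ) (C : ℝ), 0 ≤ C ∧ ∀ t : Fin k → ℝ, Generic t → ∀ X : ℝ, 1 ≤ X →
        ‖moment k M R σ t X‖ ≤ C * (1 + ‖t‖) ^ N * X ^ θ := by
  obtain ⟨D, hD, hθD⟩ := h.good
  have hθD' : xp σ θ ∈ D := by
    have : (ofP ((σ, θ) : (Fin k → ℝ) × ℝ) : Option (Fin k) → ℝ) = xp σ θ := by
      funext o; cases o <;> rfl
    rwa [this] at hθD
  set c₁ : ℝ := c1 σ + θ with hc₁
  have hc1p := c1_pos σ
  have hθc : θ < c₁ := by rw [hc₁]; linarith
  have hc₁1 : c1 σ ≤ c₁ := by rw [hc₁]; linarith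
  have hcR : xp σ c₁ ∈ R0 k := xp_mem_R0 hc₁1
  have hseg : ∀ u, θ ≤ u → u ≤ c₁ → xp σ u ∈ D := fun u h1 h2 =>
    xp_seg hD.convex hθD' (hD.subR hcR) h1 h2
  obtain ⟨δ, hδ0, hδ⟩ : ∃ δ > 0, ∀ J : Finset (Fin k), δ ≤ |1 - ∑ j ∈ J, (σ j - 1 / 2) - θ| := by
    obtain ⟨J₀, -, hJ₀⟩ := Finset.exists_min_image (Finset.univ : Finset (Finset (Fin k)))
      (fun J => |1 - ∑ j ∈ J, (σ j - 1 / 2) - θ|) Finset.univ_nonempty
    exact ⟨_, abs_pos.mpr (sub_ne_zero.mpr (hθ1 J₀).ne), fun J => hJ₀ J (Finset.mem_univ _)⟩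
  obtain ⟨G, hGd, hGb, hGR, -⟩ := hD.ex
  obtain ⟨C, N, hC⟩ := hGb ((fun u => xp σ u) '' Icc θ c₁)
    (by rintro _ ⟨u, hu, rfl⟩; exact hseg u hu.1 hu.2) (isCompact_Icc.image (continuous_xp σ))
  obtain ⟨C', hC'0, hcore⟩ := forward_core (Fintype.card (Finset (Fin k))) hθ0 hθc N (N + 1) le_rfl
  obtain ⟨_, _, _, hcs⟩ := coef_sum_bound σ hc₁1
  set Φ : (Fin k → ℝ) → ℂ → ℂ := fun t w => G (cpt (xp σ c₁) t w) with hΦ
  have hmemD : ∀ (t : Fin k → ℝ) (w : ℂ), θ ≤ w.re → w.re ≤ c₁ → cpt (xp σ c₁) t w ∈ tube D := by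
    intro t w h1 h2
    show (fun o => (cpt (xp σ c₁) t w o).re) ∈ D
    rw [re_cpt_xp]; exact hseg _ h1 h2
  refine ⟨N + 1, N, C' * |C| * (δ⁻¹) ^ Fintype.card (Finset (Fin k)), by positivity, ?_⟩
  intro t ht X hX
  have hX0 : 0 < X := by linarith
  have hu : 0 < 1 / X := by positivity
  have hu1 : 1 / X ≤ 1 := by rw [div_le_one hX0]; exact hX
  have hcore' := hcore (Finset (Fin k)) (coef k M σ t) rfl (coef_zero k M σ t) (hcs M t).1 (lamt σ t) δ
    (|C| * (1 + ‖t‖) ^ N) (Φ t) (lamt_inj σ ht) hδ0 (by positivity)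
    (fun J => by rw [lamt_re]; exact hδ J) (fun J => lt_of_lt_of_le (lamt_re_lt σ t J) hc₁1)
    ?_ ?_ ?_ (1 / X) hu
  · have e1 : ∑ J, cf (lamt σ t) (N + 1) θ (Φ t) J * ((1 / X : ℝ) : ℂ) ^ (-(lamt σ t J)) = 0 := by
      refine Finset.sum_eq_zero fun J _ => ?_
      unfold cf
      rw [if_neg (by rw [lamt_re]; exact not_lt.mpr (hθ1 J).le), zero_mul]
    rw [e1, sub_zero] at hcore'
    rw [moment_eq k M (N + 1) σ t hX]
    refine hcore'.trans (le_of_eq ?_)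
    rw [one_div, Real.inv_rpow hX0.le, ← Real.rpow_neg hX0.le, neg_neg]
    ring
  · intro w hw
    refine ((hGd _ (hmemD t w hw.1 hw.2)).differentiableAt ((isOpen_tube hD.isOpen).mem_nhds
      (hmemD t w hw.1 hw.2))).comp_differentiableWithinAt w ?_
    exact (differentiable_cpt (xp σ c₁) t w).differentiableWithinAt
  · intro v
    simp only [hΦ]
    rw [hGR (show cpt (xp σ c₁) t (c₁ + v * I) ∈ tube (R0 k) from by
      show (fun o => (cpt (xp σ c₁) t (c₁ + v * I) o).re) ∈ R0 k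
      rw [re_cpt_xp]
      simpa using hcR), Fc_cpt]
  · intro w hw1 hw2
    have h1 := hC (cpt (xp σ c₁) t w) (by rw [re_cpt_xp]; exact ⟨w.re, ⟨hw1, hw2⟩, rfl⟩)
    have h2 := norm_im_cpt_xp σ c₁ t w
    have h3 : 1 + ‖fun o => (cpt (xp σ c₁) t w o).im‖ ≤ (1 + ‖t‖) * (1 + |w.im|) := by
      have h4 := mul_nonneg (norm_nonneg t) (abs_nonneg w.im)
      nlinarith
    simp only [hΦ]
    calc ‖G (cpt (xp σ c₁) t w)‖ ≤ C * (1 + ‖fun o => (cpt (xp σ c₁) t w o).im‖) ^ N := h1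
      _ ≤ |C| * ((1 + ‖t‖) * (1 + |w.im|)) ^ N := by
          have := le_abs_self C
          gcongr
      _ = _ := by rw [mul_pow]; ring

theorem continuous_moment (k M R : ℕ) (σ : Fin k → ℝ) (X : ℝ) :
    Continuous (fun t : Fin k → ℝ => moment k M R σ t X) := by
  classical
  unfold moment
  refine continuous_finsetSum _ fun d hd => ?_
  rw [Finset.mem_filter, Finset.mem_Ioc] at hd
  refine continuous_const.mul (continuous_finsetProd _ fun j _ => ?_)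
  exact (Lent_spec hd.2 hd.1.1).1.continuous.comp (by fun_prop)

/-- The same for all shifts. -/
theorem small_of_extendsTo {k M : ℕ} {σ : Fin k → ℝ} {θ : ℝ} (hθ0 : 0 < θ)
    (hθ1 : ∀ J : Finset (Fin k), 1 - ∑ j ∈ J, (σ j - 1 / 2) < θ) (h : ExtendsTo k M (σ, θ)) :
    ∃ (R N : ℕ) (C : ℝ), 0 ≤ C ∧ ∀ t : Fin k → ℝ, ∀ X : ℝ, 1 ≤ X →
        ‖moment k M R σ t X‖ ≤ C * (1 + ‖t‖) ^ N * X ^ θ := by
  obtain ⟨R, N, C, hC, hb⟩ := small_generic hθ0 hθ1 h
  refine ⟨R, N, C, hC, fun t X hX => ?_⟩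
  have hdense : Dense {t : Fin k → ℝ | Generic t} := Measure.dense_of_ae (ae_generic k)
  have hclosed : IsClosed {t : Fin k → ℝ | ‖moment k M R σ t X‖ ≤ C * (1 + ‖t‖) ^ N * X ^ θ} :=
    isClosed_le (continuous_moment k M R σ X).norm (by fun_prop)
  have hsub : {t : Fin k → ℝ | Generic t} ⊆
      {t : Fin k → ℝ | ‖moment k M R σ t X‖ ≤ C * (1 + ‖t‖) ^ N * X ^ θ} := fun t ht => hb t ht X hX
  exact (hclosed.closure_subset_iff.mpr hsub) (hdense t)

/-- `L(s, χ_d)` is real on the real axis. -/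
theorem Lent_conj {d : ℕ} (hd : IsFundDisc d) (h1 : 1 < d) (s : ℂ) :
    Lent d ((starRingEnd ℂ) s) = (starRingEnd ℂ) (Lent d s) := by
  obtain ⟨e1, e2⟩ := Lent_spec hd h1
  set g : ℂ → ℂ := fun s => (starRingEnd ℂ) (Lent d ((starRingEnd ℂ) s)) with hg
  have hgd : Differentiable ℂ g := by
    intro s
    have h := (e1 (star s)).star_star
    rw [star_star] at h
    exact h
  have hA : AnalyticOnNhd ℂ (Lent d) Set.univ := e1.differentiableOn.analyticOnNhd isOpen_univ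
  have hB : AnalyticOnNhd ℂ g Set.univ := hgd.differentiableOn.analyticOnNhd isOpen_univ
  have hL : ∀ s : ℂ, (starRingEnd ℂ) (L d ((starRingEnd ℂ) s)) = L d s := by
    intro s
    unfold L LSeries
    rw [conj_tsum]
    refine tsum_congr fun n => ?_
    rcases Nat.eq_zero_or_pos n with rfl | hn
    · simp [LSeries.term_zero]
    · rw [LSeries.term_of_ne_zero hn.ne', LSeries.term_of_ne_zero hn.ne', map_div₀]
      congr 1
      · exact map_intCast _ _
      · rw [Complex.cpow_conj _ _ (by rw [Complex.natCast_arg]; exact Real.pi_pos.ne),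
          Complex.conj_conj, Complex.conj_natCast]
  have hev : Lent d =ᶠ[𝓝 (2 : ℂ)] g := by
    have : {s : ℂ | 1 < s.re} ∈ 𝓝 (2 : ℂ) :=
      (isOpen_lt continuous_const Complex.continuous_re).mem_nhds (by simp)
    filter_upwards [this] with s hs
    have hs' : 1 < ((starRingEnd ℂ) s).re := by rw [Complex.conj_re]; exact hs
    rw [e2 s hs, hg]
    simp only
    rw [e2 _ hs', hL]
  have := hA.eqOn_of_preconnected_of_eventuallyEq hB isPreconnected_univ (Set.mem_univ _) hev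
  have h3 := this (Set.mem_univ ((starRingEnd ℂ) s))
  rw [h3, hg]
  simp only [Complex.conj_conj]

end Pool.Agent.MDSLin
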