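import Pool.Agent.MDSLin.Bound
import Pool.Agent.MDSLin.Desc
import Pool.Agent.MDS.Reach

set_option autoImplicit false

open Complex Filter Topology MeasureTheory Set
open Pool.Agent.TubeDS Pool.Agent.MDS Pool.Agent.MDSM

namespace Pool.Agent.MDSLin

theorem prod_le_sum_pow {k : ℕ} (hk : 1 ≤ k) (x : Fin k → ℝ) (hx : ∀ j, 0 ≤ x j) :
    ∏ j, x j ≤ ∑ j, x j ^ k := by
  have hne : (Finset.univ : Finset (Fin k)).Nonempty := ⟨⟨0, by omega⟩, Finset.mem_univ _⟩
  obtain ⟨i, -, hi⟩ := Finset.exists_max_image Finset.univ x hne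
  calc ∏ j, x j ≤ ∏ _j : Fin k, x i :=
        Finset.prod_le_prod (fun j _ => hx j) fun j _ => hi j (Finset.mem_univ j)
    _ = x i ^ k := by simp
    _ ≤ ∑ j, x j ^ k :=
        Finset.single_le_sum (f := fun j => x j ^ k) (fun j _ => pow_nonneg (hx j) k) (Finset.mem_univ i)

theorem norm_moment_le {k M : ℕ} (hk : 1 ≤ k) (t : Fin k → ℝ) (X : ℝ) [DecidablePred IsFundDisc] :
    ‖moment k M 0 (fun _ => 1 / 2) t X‖ ≤
      ∑ j, ∑ d ∈ (Finset.Ioc 1 ⌊X⌋₊).filter IsFundDisc, ‖Lent d (1 / 2 + t j * I)‖ ^ k := by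
  rw [Finset.sum_comm]
  unfold moment
  refine (norm_sum_le _ _).trans ?_
  refine le_trans (le_of_eq (Finset.sum_congr (by congr) fun _ _ => rfl)) (Finset.sum_le_sum fun d _ => ?_)
  rw [pow_zero, mul_one, norm_mul, norm_prod]
  calc ‖(kron d M : ℂ)‖ * ∏ j, ‖Lent d (((1 / 2 : ℝ) : ℂ) + t j * I)‖
      ≤ 1 * ∏ j, ‖Lent d (((1 / 2 : ℝ) : ℂ) + t j * I)‖ :=
        mul_le_mul_of_nonneg_right (norm_kron_le d M) (Finset.prod_nonneg fun _ _ => norm_nonneg _)
    _ = ∏ j, ‖Lent d (1 / 2 + t j * I)‖ := by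
        rw [one_mul]
        push_cast
        rfl
    _ ≤ _ := prod_le_sum_pow hk _ fun _ => norm_nonneg _

/-- Bounds for moments give the continuation of all the twisted series. -/
theorem MomentBound.reaches {k : ℕ} (hk : 1 ≤ k) {θ : ℝ} (hθ : 0 ≤ θ) (h : MomentBound k θ) (M : ℕ) :
    Reaches k M θ := by
  classical
  refine ((dictionary k M (fun _ => 1 / 2) hθ).out 0 1).mpr ?_
  intro c hc
  obtain ⟨C, N, hC⟩ := h c hc
  refine ⟨0, N, k * |C|, fun t _ => ⟨fun _ => 0, fun X hX => ?_⟩⟩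
  have e : mainTerm (fun _ => 0) (fun _ : Fin k => 1 / 2) t X = 0 := by simp [mainTerm]
  rw [e, sub_zero]
  refine (norm_moment_le hk t X).trans ?_
  have h1 : ∀ j, ∑ d ∈ (Finset.Ioc 1 ⌊X⌋₊).filter IsFundDisc, ‖Lent d (1 / 2 + t j * I)‖ ^ k ≤
      |C| * (1 + ‖t‖) ^ N * X ^ c := by
    intro j
    refine le_trans (le_of_eq (Finset.sum_congr (by congr) fun _ _ => rfl)) ((hC (t j) X hX).trans ?_)
    have h2 := le_abs_self C
    have h3 : |t j| ≤ ‖t‖ := norm_le_pi_norm t j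
    have h4 : 0 ≤ X ^ c := Real.rpow_nonneg (by linarith) c
    gcongr
  refine (Finset.sum_le_sum fun j _ => h1 j).trans (le_of_eq ?_)
  rw [Finset.sum_const, Finset.card_univ, Fintype.card_fin, nsmul_eq_mul]
  ring

/-- the shifts `(t, ..., t, -t, ..., -t)` -/
noncomputable def sh (m : ℕ) (t : ℝ) : Fin (m + m) → ℝ := Fin.append (fun _ => t) (fun _ => -t)

theorem norm_sh_le (m : ℕ) (t : ℝ) : ‖sh m t‖ ≤ |t| := by
  rw [pi_norm_le_iff_of_nonneg (abs_nonneg t)]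
  intro j
  unfold sh
  refine Fin.addCases (fun i => ?_) (fun i => ?_) j
  · rw [Fin.append_left]; exact le_of_eq rfl
  · rw [Fin.append_right, norm_neg]; exact le_of_eq rfl

theorem prod_sh {m d : ℕ} (hd : IsFundDisc d) (h1 : 1 < d) (t : ℝ) :
    ∏ j, Lent d (((1 / 2 : ℝ) : ℂ) + sh m t j * I) = ((‖Lent d (1 / 2 + t * I)‖ ^ (m + m) : ℝ) : ℂ) := by
  rw [Fin.prod_univ_add]
  unfold sh
  simp only [Fin.append_left, Fin.append_right, Finset.prod_const, Finset.card_univ, Fintype.card_fin]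
  have e : (((1 / 2 : ℝ) : ℂ) + ((-t : ℝ) : ℂ) * I) = (starRingEnd ℂ) (1 / 2 + t * I) := by
    rw [map_add, map_mul, Complex.conj_ofReal, Complex.conj_I]
    have : (starRingEnd ℂ) (1 / 2 : ℂ) = 1 / 2 := by
      have h2 : (1 / 2 : ℂ) = ((1 / 2 : ℝ) : ℂ) := by push_cast; rfl
      rw [h2, Complex.conj_ofReal]
    rw [this]
    push_cast
    ring
  rw [e, Lent_conj hd h1]
  have e2 : (((1 / 2 : ℝ) : ℂ) + (t : ℂ) * I) = 1 / 2 + t * I := by push_cast; rfl
  rw [e2, ← mul_pow, Complex.mul_conj, Complex.normSq_eq_norm_sq]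
  push_cast
  rw [← pow_mul]
  congr 1
  ring

/-- From the continuation to bounds for the moments of even order. -/
theorem Reaches.momentBound {m : ℕ} {θ : ℝ} (hθ : 1 ≤ θ) (h : Reaches (m + m) 1 θ) :
    MomentBound (m + m) θ := by
  classical
  intro c hc
  obtain ⟨R, N, C, hC0, hC⟩ := small_of_extendsTo (k := m + m) (M := 1) (σ := fun _ => 1 / 2) (θ := c)
    (by linarith) (fun J => by simp only [sub_self, Finset.sum_const_zero, sub_zero]; linarith) (h c hc)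
  refine ⟨2 ^ R * C * 2 ^ c, N, fun t X hX => ?_⟩
  have hX0 : 0 < X := by linarith
  have h1 := hC (sh m t) (2 * X) (by linarith)
  set f : ℕ → ℝ := fun d => ‖Lent d (1 / 2 + t * I)‖ ^ (m + m) with hf
  have hf0 : ∀ d, 0 ≤ f d := fun d => pow_nonneg (norm_nonneg _) _
  have e1 : moment (m + m) 1 R (fun _ => 1 / 2) (sh m t) (2 * X) =
      ((∑ d ∈ (Finset.Ioc 1 ⌊2 * X⌋₊).filter IsFundDisc, (1 - (d : ℝ) / (2 * X)) ^ R * f d : ℝ) : ℂ) := by
    unfold moment
    rw [Complex.ofReal_sum]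
    refine Finset.sum_congr (by congr) fun d hd => ?_
    rw [Finset.mem_filter, Finset.mem_Ioc] at hd
    rw [kron_one_right, prod_sh hd.2 hd.1.1]
    simp only [hf]
    push_cast
    ring
  have hterm : ∀ d ∈ (Finset.Ioc 1 ⌊2 * X⌋₊).filter IsFundDisc,
      0 ≤ (1 - (d : ℝ) / (2 * X)) ^ R * f d := by
    intro d hd
    rw [Finset.mem_filter, Finset.mem_Ioc] at hd
    have h2 : (d : ℝ) ≤ 2 * X := (Nat.le_floor_iff (by linarith)).mp hd.1.2
    have h3 : 0 ≤ 1 - (d : ℝ) / (2 * X) := by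
      rw [sub_nonneg, div_le_one (by linarith)]; exact h2
    exact mul_nonneg (pow_nonneg h3 R) (hf0 d)
  rw [e1, Complex.norm_real, Real.norm_of_nonneg (Finset.sum_nonneg hterm)] at h1
  have hsub : (Finset.Ioc 1 ⌊X⌋₊).filter IsFundDisc ⊆ (Finset.Ioc 1 ⌊2 * X⌋₊).filter IsFundDisc := by
    apply Finset.filter_subset_filter
    apply Finset.Ioc_subset_Ioc_right
    exact Nat.floor_le_floor (by linarith)
  have h2 : (1 / 2) ^ R * ∑ d ∈ (Finset.Ioc 1 ⌊X⌋₊).filter IsFundDisc, f d ≤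
      ∑ d ∈ (Finset.Ioc 1 ⌊2 * X⌋₊).filter IsFundDisc, (1 - (d : ℝ) / (2 * X)) ^ R * f d := by
    rw [Finset.mul_sum]
    refine le_trans (Finset.sum_le_sum fun d hd => ?_)
      (Finset.sum_le_sum_of_subset_of_nonneg hsub fun d hd _ => hterm d hd)
    rw [Finset.mem_filter, Finset.mem_Ioc] at hd
    have h3 : (d : ℝ) ≤ X := (Nat.le_floor_iff hX0.le).mp hd.1.2
    have h4 : 1 / 2 ≤ 1 - (d : ℝ) / (2 * X) := by
      have : (d : ℝ) / (2 * X) ≤ 1 / 2 := by
        rw [div_le_div_iff₀ (by linarith) (by norm_num)]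
        linarith
      linarith
    exact mul_le_mul_of_nonneg_right (pow_le_pow_left₀ (by norm_num) h4 R) (hf0 d)
  have h3 := h2.trans h1
  have h4 : ∑ d ∈ (Finset.Ioc 1 ⌊X⌋₊).filter IsFundDisc, f d ≤
      2 ^ R * (C * (1 + ‖sh m t‖) ^ N * (2 * X) ^ c) := by
    have h5 : (2 : ℝ) ^ R * ((1 / 2) ^ R * ∑ d ∈ (Finset.Ioc 1 ⌊X⌋₊).filter IsFundDisc, f d) =
        ∑ d ∈ (Finset.Ioc 1 ⌊X⌋₊).filter IsFundDisc, f d := by
      rw [← mul_assoc, ← mul_pow]
      norm_num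
    rw [← h5]
    exact mul_le_mul_of_nonneg_left h3 (by positivity)
  refine le_trans (le_of_eq (Finset.sum_congr (by congr) fun _ _ => rfl)) (h4.trans ?_)
  rw [Real.mul_rpow (by norm_num) hX0.le]
  have h6 := norm_sh_le m t
  have h7 : (1 + ‖sh m t‖) ^ N ≤ (1 + |t|) ^ N := pow_le_pow_left₀ (by positivity) (by linarith) N
  calc 2 ^ R * (C * (1 + ‖sh m t‖) ^ N * (2 ^ c * X ^ c))
      ≤ 2 ^ R * (C * (1 + |t|) ^ N * (2 ^ c * X ^ c)) := by gcongr
    _ = _ := by ring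

/-- Pointwise bounds give bounds for all moments. -/
theorem PointBound.momentBound {μ : ℝ} (hμ : 0 ≤ μ) (h : PointBound μ) (k : ℕ) :
    MomentBound k (1 + k * μ) := by
  classical
  have hcard : ∀ X : ℝ, 1 ≤ X → (((Finset.Ioc 1 ⌊X⌋₊).filter IsFundDisc).card : ℝ) ≤ X := by
    intro X hX
    refine le_trans ?_ (Nat.floor_le (by linarith : (0 : ℝ) ≤ X))
    exact_mod_cast (Finset.card_filter_le _ _).trans (by simp)
  intro c hc
  rcases Nat.eq_zero_or_pos k with rfl | hk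
  · refine ⟨1, 0, fun t X hX => ?_⟩
    simp only [pow_zero, Finset.sum_const, nsmul_eq_mul, mul_one, one_mul]
    refine (hcard X hX).trans ?_
    have h1 : X ^ (1 : ℝ) ≤ X ^ c :=
      Real.rpow_le_rpow_of_exponent_le hX (by simpa using hc.le)
    rwa [Real.rpow_one] at h1
  · have hk0 : (0 : ℝ) < k := by exact_mod_cast hk
    set μ' : ℝ := (c - 1) / k with hμ'
    have h1 : μ < μ' := by rw [hμ', lt_div_iff₀ hk0]; linarith
    obtain ⟨C, N, hC⟩ := h μ' h1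
    refine ⟨|C| ^ k, N * k, fun t X hX => ?_⟩
    have hX0 : 0 < X := by linarith
    have h2 : ∀ d ∈ (Finset.Ioc 1 ⌊X⌋₊).filter IsFundDisc, ‖Lent d (1 / 2 + t * I)‖ ^ k ≤
        (|C| * (1 + |t|) ^ N * X ^ μ') ^ k := by
      intro d hd
      rw [Finset.mem_filter, Finset.mem_Ioc] at hd
      have h3 : (d : ℝ) ≤ X := (Nat.le_floor_iff hX0.le).mp hd.1.2
      refine pow_le_pow_left₀ (norm_nonneg _) ((hC d hd.2 hd.1.1 t).trans ?_) k
      have h4 := le_abs_self C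
      have h5 : (d : ℝ) ^ μ' ≤ X ^ μ' := Real.rpow_le_rpow (by positivity) h3 (by linarith)
      gcongr
    refine (Finset.sum_le_card_nsmul _ _ _ h2).trans ?_
    rw [nsmul_eq_mul]
    have h6 : (X ^ μ') ^ k = X ^ (c - 1) := by
      rw [← Real.rpow_natCast, ← Real.rpow_mul hX0.le]
      congr 1
      rw [hμ']
      field_simp
    have h7 : X * X ^ (c - 1) = X ^ c := by
      rw [← Real.rpow_one_add' hX0.le (by
        have : (0 : ℝ) ≤ k * μ := by positivity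
        linarith)]
      congr 1
      ring
    calc (((Finset.Ioc 1 ⌊X⌋₊).filter IsFundDisc).card : ℝ) * (|C| * (1 + |t|) ^ N * X ^ μ') ^ k
        ≤ X * (|C| * (1 + |t|) ^ N * X ^ μ') ^ k :=
          mul_le_mul_of_nonneg_right (hcard X hX) (by positivity)
      _ = |C| ^ k * (1 + |t|) ^ (N * k) * X ^ c := by
          rw [mul_pow, mul_pow, h6, ← pow_mul, ← h7]
          ring

/-- A bound for one moment gives a pointwise bound. -/
theorem MomentBound.pointBound {k : ℕ} (hk : 1 ≤ k) {θ : ℝ} (h : MomentBound k θ) :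
    PointBound (θ / k) := by
  classical
  have hk0 : (0 : ℝ) < k := by exact_mod_cast hk
  intro c hc
  obtain ⟨C, N, hC⟩ := h (c * k) (by rwa [gt_iff_lt, div_lt_iff₀ hk0] at hc)
  refine ⟨|C| + 1, N, fun d hd h1 t => ?_⟩
  have hd0 : (0 : ℝ) < d := by exact_mod_cast (by omega : 0 < d)
  have h2 := hC t d (by exact_mod_cast h1.le)
  rw [Nat.floor_natCast] at h2
  have h3 : ‖Lent d (1 / 2 + t * I)‖ ^ k ≤ C * (1 + |t|) ^ N * (d : ℝ) ^ (c * k) := by
    refine le_trans ?_ h2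
    exact Finset.single_le_sum (f := fun d => ‖Lent d (1 / 2 + t * I)‖ ^ k)
      (fun _ _ => pow_nonneg (norm_nonneg _) k)
      (Finset.mem_filter.mpr ⟨Finset.mem_Ioc.mpr ⟨h1, le_rfl⟩, hd⟩)
  have h4 : (0 : ℝ) ≤ (|C| + 1) * (1 + |t|) ^ N * (d : ℝ) ^ c := by positivity
  refine (pow_le_pow_iff_left₀ (norm_nonneg _) h4 (by omega)).mp (h3.trans ?_)
  rw [mul_pow, mul_pow, Real.rpow_mul hd0.le, Real.rpow_natCast]
  have h5 : C ≤ (|C| + 1) ^ k := by
    have h6 := le_abs_self C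
    have h7 : (|C| + 1) ^ 1 ≤ (|C| + 1) ^ k :=
      pow_le_pow_right₀ (by have := abs_nonneg C; linarith) hk
    rw [pow_one] at h7
    linarith
  have h8 : (1 + |t|) ^ N ≤ ((1 + |t|) ^ N) ^ k := by
    have h9 : (1 : ℝ) ≤ (1 + |t|) ^ N := one_le_pow₀ (by have := abs_nonneg t; linarith)
    calc (1 + |t|) ^ N = ((1 + |t|) ^ N) ^ 1 := (pow_one _).symm
      _ ≤ _ := pow_le_pow_right₀ h9 hk
  gcongr

theorem reaches_of_weight {k M : ℕ} (hk : 2 ≤ k) {θ : ℝ}
    (h : ∀ c > θ, ∃ x, ExtendsTo k M x ∧ weight x ≤ c) : Reaches k M θ := by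
  intro c hc
  obtain ⟨x, hx, hw⟩ := h c hc
  exact hx.center hk hw

/-- For even `k` and `θ ≥ 1`: bounds for the `k`-th moment, and the continuation up to `(1/2, ..., 1/2; θ)`. -/
theorem moment_tfae {k : ℕ} (hk : 2 ≤ k) (he : Even k) {θ : ℝ} (hθ : 1 ≤ θ) :
    [MomentBound k θ, ∀ M, 1 ≤ M → Reaches k M θ,
      ∀ c > θ, ∃ x, ExtendsTo k 1 x ∧ weight x ≤ c].TFAE := by
  tfae_have 1 → 2 := fun h M _ => h.reaches (by omega) (by linarith) M
  tfae_have 2 → 3 := fun h c hc => ⟨_, h 1 le_rfl c hc, by simp [weight]⟩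
  tfae_have 3 → 1 := by
    intro h
    obtain ⟨m, rfl⟩ := he
    exact (reaches_of_weight hk h).momentBound hθ
  tfae_finish

theorem Reaches.descend {k M : ℕ} (hM : 1 ≤ M) {θ : ℝ} (hθ : 1 / 2 ≤ θ) (h : Reaches (k + 1) M θ)
    {n : ℕ} (hn : 1 ≤ n) : Reaches k (M * n) θ := fun c hc =>
  descent_to hM (hθ.trans hc.le) (h c hc) hn

/-- What the continuation for one `k` gives for single `L`-functions. -/
theorem Reaches.pointBound {k : ℕ} (hk : 2 ≤ k) {θ : ℝ} (hθ : 1 ≤ θ) (h : Reaches k 1 θ) :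
    PointBound (θ / (2 * (k / 2 : ℕ) : ℕ)) := by
  rcases Nat.even_or_odd k with ⟨m, rfl⟩ | ⟨m, rfl⟩
  · have e : 2 * ((m + m) / 2) = m + m := by omega
    rw [e]
    exact (h.momentBound hθ).pointBound (by omega)
  · have e : 2 * ((2 * m + 1) / 2) = m + m := by omega
    rw [e]
    have h1 : Reaches (m + m) 1 θ := by
      have h2 : Reaches (m + m + 1) 1 θ := by
        have : m + m + 1 = 2 * m + 1 := by omega
        rw [this]; exact h
      simpa using h2.descend le_rfl (by linarith) (n := 1) le_rfl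
    exact (h1.momentBound hθ).pointBound (by omega)

theorem PointBound.reaches {μ : ℝ} (hμ : 0 ≤ μ) (h : PointBound μ) {k : ℕ} (hk : 1 ≤ k) (M : ℕ) :
    Reaches k M (1 + k * μ) :=
  (h.momentBound hμ k).reaches hk (by positivity) M

/-- The Lindelöf hypothesis in the conductor aspect. -/
theorem lindelof_tfae :
    [PointBound 0, ∀ k M : ℕ, 1 ≤ k → 1 ≤ M → Reaches k M 1,
      ∀ k₀ : ℕ, ∃ k ≥ k₀, ∀ c > 1, ∃ x, ExtendsTo k 1 x ∧ weight x ≤ c].TFAE := by
  tfae_have 1 → 2 := by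
    intro h k M hk _
    simpa using h.reaches le_rfl hk M
  tfae_have 2 → 3 := fun h k₀ => ⟨k₀ + 1, Nat.le_succ _, fun c hc =>
    ⟨_, h (k₀ + 1) 1 (by omega) le_rfl c hc, by simp [weight]⟩⟩
  tfae_have 3 → 1 := by
    intro h c hc
    obtain ⟨n, hn⟩ := exists_nat_gt (1 / c)
    obtain ⟨k, hk, hx⟩ := h (2 * (n + 1))
    have h1 := (reaches_of_weight (by omega) hx).pointBound (by omega) le_rfl
    apply h1
    have h2 : n + 1 ≤ 2 * (k / 2) := by omega
    have h3 : ((n + 1 : ℕ) : ℝ) ≤ ((2 * (k / 2) : ℕ) : ℝ) := by exact_mod_cast h2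
    push_cast at h3 ⊢
    have h4 : 0 < 2 * ((k / 2 : ℕ) : ℝ) := by
      have : (0 : ℝ) ≤ n := Nat.cast_nonneg n
      linarith
    rw [gt_iff_lt, div_lt_iff₀ h4]
    rw [div_lt_iff₀ hc] at hn
    nlinarith
  tfae_finish

/-- What Q1 for one even `k` gives. -/
theorem pointBound_of_continues {k : ℕ} (hk : 2 ≤ k) (h : Continues k 1) :
    PointBound (1 / (2 * (k / 2 : ℕ) : ℕ)) := by
  have h1 : ExtendsTo k 1 (fun _ => 1 / 2, 1) := continues_iff.mp h
  refine Reaches.pointBound hk le_rfl (reaches_of_weight hk fun c hc => ⟨_, h1, ?_⟩)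
  simp only [weight, sub_self, Finset.sum_const_zero, zero_div, add_zero]
  exact hc.le

end Pool.Agent.MDSLin
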