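import Pool.Agent.MDSLin.Main

set_option autoImplicit false

open Complex Filter Topology MeasureTheory Set
open Pool.Agent.TubeDS Pool.Agent.MDS Pool.Agent.MDSM
open scoped ENNReal

namespace Pool.Agent.MDSLin

open Classical in
/-- the `k`-th absolute moment -/
noncomputable def Sm (k : ℕ) (t X : ℝ) : ℝ :=
  ∑ d ∈ (Finset.Ioc 1 ⌊X⌋₊).filter IsFundDisc, ‖Lent d (1 / 2 + t * I)‖ ^ k

theorem Sm_nonneg (k : ℕ) (t X : ℝ) : 0 ≤ Sm k t X :=
  Finset.sum_nonneg fun _ _ => pow_nonneg (norm_nonneg _) k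

theorem Sm_mono (k : ℕ) (t : ℝ) {X Y : ℝ} (h : X ≤ Y) : Sm k t X ≤ Sm k t Y := by
  classical
  unfold Sm
  refine Finset.sum_le_sum_of_subset_of_nonneg ?_ fun _ _ _ => pow_nonneg (norm_nonneg _) k
  apply Finset.filter_subset_filter
  exact Finset.Ioc_subset_Ioc_right (Nat.floor_le_floor h)

theorem continuous_Sm (k : ℕ) (X : ℝ) : Continuous (fun t => Sm k t X) := by
  classical
  unfold Sm
  refine continuous_finsetSum _ fun d hd => ?_
  rw [Finset.mem_filter, Finset.mem_Ioc] at hd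
  exact ((Lent_spec hd.2 hd.1.1).1.continuous.comp (by fun_prop)).norm.pow k

theorem lintegral_coord {k : ℕ} (j : Fin k) {T : ℝ} (hT : 1 ≤ T) {f : ℝ → ℝ} (hf : Continuous f)
    (hf0 : ∀ t, 0 ≤ f t) :
    ∫⁻ t in {t : Fin k → ℝ | ‖t‖ ≤ T}, ENNReal.ofReal (f (t j)) ≤
      ENNReal.ofReal ((2 * T) ^ k * ∫ τ in (-T)..T, f τ) := by
  classical
  have hT0 : 0 ≤ T := by linarith
  have e1 : {t : Fin k → ℝ | ‖t‖ ≤ T} = Set.univ.pi fun _ : Fin k => Icc (-T) T := by
    ext t
    simp only [mem_ofPred_eq, Set.mem_pi, mem_univ, true_imp_iff, mem_Icc]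
    rw [pi_norm_le_iff_of_nonneg hT0]
    simp only [Real.norm_eq_abs, abs_le]
  have e2 : (volume : Measure (Fin k → ℝ)).restrict {t : Fin k → ℝ | ‖t‖ ≤ T} =
      Measure.pi fun _ : Fin k => (volume : Measure ℝ).restrict (Icc (-T) T) := by
    rw [e1, volume_pi, Measure.restrict_pi_pi]
  have hm : Measurable fun τ : ℝ => ENNReal.ofReal (f τ) := hf.measurable.ennreal_ofReal
  have e3 : ∫⁻ t in {t : Fin k → ℝ | ‖t‖ ≤ T}, ENNReal.ofReal (f (t j)) =
      ∫⁻ τ, ENNReal.ofReal (f τ) ∂((Measure.pi fun _ : Fin k =>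
        (volume : Measure ℝ).restrict (Icc (-T) T)).map (Function.eval j)) := by
    rw [lintegral_map hm (measurable_pi_apply j), e2]
  rw [e3, Measure.pi_map_eval, lintegral_smul_measure]
  have e4 : ∏ i ∈ Finset.univ.erase j, ((volume : Measure ℝ).restrict (Icc (-T) T)) Set.univ =
      ENNReal.ofReal ((2 * T) ^ (k - 1)) := by
    rw [Finset.prod_const, Finset.card_erase_of_mem (Finset.mem_univ j), Finset.card_univ,
      Fintype.card_fin, Measure.restrict_apply_univ, Real.volume_Icc, ← ENNReal.ofReal_pow (by linarith)]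
    congr 2
    ring
  rw [e4]
  have e5 : ∫⁻ τ in Icc (-T) T, ENNReal.ofReal (f τ) = ENNReal.ofReal (∫ τ in (-T)..T, f τ) := by
    rw [intervalIntegral.integral_of_le (by linarith), ← integral_Icc_eq_integral_Ioc,
      ofReal_integral_eq_lintegral_ofReal]
    · exact (hf.continuousOn.integrableOn_Icc)
    · exact Filter.Eventually.of_forall hf0
  rw [e5, smul_eq_mul, ← ENNReal.ofReal_mul (by positivity)]
  apply ENNReal.ofReal_le_ofReal
  have h1 : 0 ≤ ∫ τ in (-T)..T, f τ := intervalIntegral.integral_nonneg (by linarith) fun τ _ => hf0 τ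
  have h2 : (2 * T) ^ (k - 1) ≤ (2 * T) ^ k := pow_le_pow_right₀ (by linarith) (Nat.sub_le k 1)
  exact mul_le_mul_of_nonneg_right h2 h1

theorem MeanMomentBound.reaches {k : ℕ} (hk : 1 ≤ k) {θ : ℝ} (hθ : 0 ≤ θ) (h : MeanMomentBound k θ)
    (M : ℕ) : Reaches k M θ := by
  classical
  refine ((dictionary k M (fun _ => 1 / 2) hθ).out 0 2).mpr ?_
  intro c hc
  obtain ⟨C, N, hC⟩ := h c hc
  refine ⟨0, k + N, k * 2 ^ k * |C| * 2 ^ c, fun _ _ => 0, fun _ => measurable_const, ?_⟩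
  intro Y T hY hT
  have hY0 : 0 < Y := by linarith
  have e : ∀ t X, mainTerm (fun _ => 0) (fun _ : Fin k => 1 / 2) t X = 0 := by intro t X; simp [mainTerm]
  have hpt : ∀ t : Fin k → ℝ, ∀ X ∈ Icc Y (2 * Y), ‖moment k M 0 (fun _ => 1 / 2) t X‖ₑ ≤
      ∑ j, ENNReal.ofReal (Sm k (t j) (2 * Y)) := by
    intro t X hX
    rw [← ofReal_norm, ← ENNReal.ofReal_sum_of_nonneg fun j _ => Sm_nonneg k (t j) (2 * Y)]
    apply ENNReal.ofReal_le_ofReal
    refine (norm_moment_le hk t X).trans (Finset.sum_le_sum fun j _ => ?_)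
    refine le_trans (le_of_eq ?_) (Sm_mono k (t j) hX.2)
    unfold Sm
    exact Finset.sum_congr (by congr) fun _ _ => rfl
  calc ∫⁻ t in {t : Fin k → ℝ | ‖t‖ ≤ T}, ∫⁻ X in Icc Y (2 * Y),
        ‖moment k M 0 (fun _ => 1 / 2) t X - mainTerm (fun _ => 0) (fun _ => 1 / 2) t X‖ₑ
      ≤ ∫⁻ t in {t : Fin k → ℝ | ‖t‖ ≤ T}, ENNReal.ofReal Y * ∑ j, ENNReal.ofReal (Sm k (t j) (2 * Y)) := by
        apply lintegral_mono
        intro t
        calc ∫⁻ X in Icc Y (2 * Y),
              ‖moment k M 0 (fun _ => 1 / 2) t X - mainTerm (fun _ => 0) (fun _ => 1 / 2) t X‖ₑ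
            ≤ ∫⁻ _X in Icc Y (2 * Y), ∑ j, ENNReal.ofReal (Sm k (t j) (2 * Y)) := by
              apply lintegral_mono_ae
              filter_upwards [ae_restrict_mem measurableSet_Icc] with X hX
              rw [e, sub_zero]
              exact hpt t X hX
          _ = ENNReal.ofReal Y * ∑ j, ENNReal.ofReal (Sm k (t j) (2 * Y)) := by
              rw [lintegral_const, Measure.restrict_apply_univ, Real.volume_Icc, mul_comm]
              congr 2
              ring
    _ = ENNReal.ofReal Y * ∑ j : Fin k, ∫⁻ t in {t : Fin k → ℝ | ‖t‖ ≤ T},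
          ENNReal.ofReal (Sm k (t j) (2 * Y)) := by
        have hm : ∀ j : Fin k, Measurable fun t : Fin k → ℝ => ENNReal.ofReal (Sm k (t j) (2 * Y)) :=
          fun j => ((continuous_Sm k (2 * Y)).measurable.comp (measurable_pi_apply j)).ennreal_ofReal
        rw [lintegral_const_mul _ (Finset.measurable_fun_sum _ fun j _ => hm j),
          lintegral_finsetSum _ fun j _ => hm j]
    _ ≤ ENNReal.ofReal Y * ∑ _j : Fin k, ENNReal.ofReal ((2 * T) ^ k * (|C| * T ^ N * (2 * Y) ^ c)) := by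
        gcongr with j _
        refine (lintegral_coord j hT (continuous_Sm k (2 * Y)) fun t => Sm_nonneg k t _).trans ?_
        apply ENNReal.ofReal_le_ofReal
        have h1 : ∫ τ in (-T)..T, Sm k τ (2 * Y) ≤ C * T ^ N * (2 * Y) ^ c := by
          refine le_trans (le_of_eq ?_) (hC T (2 * Y) hT (by linarith))
          refine intervalIntegral.integral_congr fun τ _ => ?_
          unfold Sm
          exact Finset.sum_congr (by congr) fun _ _ => rfl
        have h2 := le_abs_self C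
        have h3 : 0 ≤ (2 * Y) ^ c := Real.rpow_nonneg (by linarith) c
        have h4 : C * T ^ N * (2 * Y) ^ c ≤ |C| * T ^ N * (2 * Y) ^ c := by gcongr
        exact mul_le_mul_of_nonneg_left (h1.trans h4) (by positivity)
    _ = ENNReal.ofReal (k * 2 ^ k * |C| * 2 ^ c * T ^ (k + N) * Y ^ (1 + c)) := by
        rw [Finset.sum_const, Finset.card_univ, Fintype.card_fin, nsmul_eq_mul,
          ← ENNReal.ofReal_natCast, ← ENNReal.ofReal_mul (Nat.cast_nonneg k),
          ← ENNReal.ofReal_mul hY0.le]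
        congr 1
        rw [Real.mul_rpow (by norm_num) hY0.le, Real.rpow_add hY0, Real.rpow_one, mul_pow, pow_add]
        ring

theorem MomentBound.mean {k : ℕ} {θ : ℝ} (h : MomentBound k θ) : MeanMomentBound k θ := by
  classical
  intro c hc
  obtain ⟨C, N, hC⟩ := h c hc
  refine ⟨2 * |C| * 2 ^ N, N + 1, fun T X hT hX => ?_⟩
  have hT0 : 0 ≤ T := by linarith
  have h0 : 0 ≤ X ^ c := Real.rpow_nonneg (by linarith) c
  have h1 : ∀ t ∈ Icc (-T) T, Sm k t X ≤ |C| * (2 * T) ^ N * X ^ c := by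
    intro t ht
    have h2 : Sm k t X ≤ C * (1 + |t|) ^ N * X ^ c := by
      refine le_trans (le_of_eq ?_) (hC t X hX)
      unfold Sm
      exact Finset.sum_congr (by congr) fun _ _ => rfl
    have h3 : |t| ≤ T := abs_le.mpr ht
    have h4 : 1 + |t| ≤ 2 * T := by linarith
    have h5 := le_abs_self C
    calc Sm k t X ≤ C * (1 + |t|) ^ N * X ^ c := h2
      _ ≤ |C| * (2 * T) ^ N * X ^ c := by gcongr
  have h2 : ∫ t in (-T)..T, Sm k t X ≤ ∫ _t in (-T)..T, |C| * (2 * T) ^ N * X ^ c :=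
    intervalIntegral.integral_mono_on (by linarith) ((continuous_Sm k X).intervalIntegrable _ _)
      intervalIntegrable_const h1
  rw [intervalIntegral.integral_const] at h2
  have e : ∫ t in (-T)..T, ∑ d ∈ (Finset.Ioc 1 ⌊X⌋₊).filter IsFundDisc, ‖Lent d (1 / 2 + t * I)‖ ^ k =
      ∫ t in (-T)..T, Sm k t X := by
    refine intervalIntegral.integral_congr fun t _ => ?_
    unfold Sm
    exact Finset.sum_congr (by congr) fun _ _ => rfl
  refine le_trans (le_of_eq ?_) (h2.trans (le_of_eq ?_))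
  · rw [← e]
  · rw [smul_eq_mul, mul_pow, pow_succ]
    ring

/-- For even `k` and `θ ≥ 1`: bounds for the `k`-th moment, pointwise or in mean over `t`, and the
continuation up to `(1/2, ..., 1/2; θ)`. -/
theorem moment_tfae' {k : ℕ} (hk : 2 ≤ k) (he : Even k) {θ : ℝ} (hθ : 1 ≤ θ) :
    [MomentBound k θ, MeanMomentBound k θ, ∀ M, 1 ≤ M → Reaches k M θ,
      ∀ c > θ, ∃ x, ExtendsTo k 1 x ∧ weight x ≤ c].TFAE := by
  tfae_have 1 → 2 := fun h => h.mean
  tfae_have 2 → 3 := fun h M _ => h.reaches (by omega) (by linarith) M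
  tfae_have 3 ↔ 4 := (moment_tfae hk he hθ).out 1 2
  tfae_have 3 ↔ 1 := (moment_tfae hk he hθ).out 1 0
  tfae_finish

end Pool.Agent.MDSLin
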